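import Mathlib
import Pool.Agent.Helper98.BH.Defs
import Pool.Agent.Helper98.BH.Defs2

/-!
# BH-7: universal trees for analytic sets
-/

namespace Pool.Agent.BH

open MeasureTheory Filter Topology

theorem res_eq_iff (f f' : Bai) (n : ℕ) : res f n = res f' n ↔ ∀ i < n, f i = f' i := by
  simp [res, List.map_inj_left]

theorem res_length (f : Bai) (n : ℕ) : (res f n).length = n := by
  simp [res]

theorem res_take (f : Bai) {i n : ℕ} (h : i ≤ n) : (res f n).take i = res f i := by
  rw [res, res, ← List.map_take, List.take_range, min_eq_left h]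

/-- the basic neighbourhoods are met -/
def GoodN (f : Bai → Bai × Bai × Bai) (q : List ℕ × List ℕ × List ℕ × List ℕ) : Prop :=
  ∃ g : Bai, res g q.2.2.2.length = q.2.2.2 ∧ res (f g).1 q.1.length = q.1 ∧
    res (f g).2.1 q.2.1.length = q.2.1 ∧ res (f g).2.2 q.2.2.1.length = q.2.2.1

theorem exists_index (V : Set (Bai × Bai × Bai)) (hV : AnalyticSet V) :
    ∃ p : Bai, ∀ a₁ a₂ c, (a₁, a₂, c) ∈ V ↔ ∃ g : Bai, ∀ n, res g n ∈ Tr p a₁ a₂ c := by
  classical
  rw [AnalyticSet] at hV
  rcases hV with rfl | ⟨f, hf, rfl⟩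
  · refine ⟨fun _ => 1, fun a₁ a₂ c => ⟨fun h => h.elim, ?_⟩⟩
    rintro ⟨g, hg⟩
    have := hg 1 1 one_pos (by rw [res_length])
    exact absurd this one_ne_zero
  · refine ⟨fun j => match (Encodable.decode j : Option (List ℕ × List ℕ × List ℕ × List ℕ)) with
      | some q => if GoodN f q then 0 else 1
      | none => 1, fun a₁ a₂ c => ⟨?_, ?_⟩⟩
    · rintro ⟨g, hg⟩
      refine ⟨g, fun n i _ hi => ?_⟩
      rw [res_length] at hi
      simp only [Encodable.encodek]
      rw [if_pos]
      refine ⟨g, ?_⟩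
      simp only [res_take g hi, res_length, hg, and_self]
    · rintro ⟨g, hg⟩
      have key : ∀ i : ℕ, ∃ g' : Bai, res g' (i + 1) = res g (i + 1) ∧
          res (f g').1 (i + 1) = res a₁ (i + 1) ∧ res (f g').2.1 (i + 1) = res a₂ (i + 1) ∧
          res (f g').2.2 (i + 1) = res c (i + 1) := by
        intro i
        have h1 := hg (i + 1) (i + 1) (Nat.succ_pos i) (by rw [res_length])
        simp only [Encodable.encodek] at h1
        have h2 : GoodN f (res a₁ (i + 1), res a₂ (i + 1), res c (i + 1),
            (res g (i + 1)).take (i + 1)) := by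
          by_contra hc
          rw [if_neg hc] at h1
          exact one_ne_zero h1
        obtain ⟨g', h3⟩ := h2
        refine ⟨g', ?_⟩
        simpa only [res_take g le_rfl, res_length] using h3
      choose G hG1 hG2 hG3 hG4 using key
      have lim : ∀ (F : ℕ → Bai) (e : Bai), (∀ i, res (F i) (i + 1) = res e (i + 1)) →
          Tendsto F atTop (𝓝 e) := by
        intro F e h
        rw [tendsto_pi_nhds]
        intro n
        refine tendsto_const_nhds.congr' ?_
        filter_upwards [eventually_ge_atTop n] with i hi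
        exact ((res_eq_iff _ _ _).1 (h i) n (Nat.lt_succ_of_le hi)).symm
      have h1 := (hf.tendsto g).comp (lim G g hG1)
      have h2 : Tendsto (f ∘ G) atTop (𝓝 (a₁, a₂, c)) := by
        have e1 := lim (fun i => (f (G i)).1) a₁ hG2
        have e2 := lim (fun i => (f (G i)).2.1) a₂ hG3
        have e3 := lim (fun i => (f (G i)).2.2) c hG4
        exact e1.prodMk_nhds (e2.prodMk_nhds e3)
      exact ⟨g, tendsto_nhds_unique h1 h2⟩

lemma Tr_prefix (p a₁ a₂ c : Bai) (t t' : List ℕ) (h : t ∈ Tr p a₁ a₂ c) (h' : t' <+: t) :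
    t' ∈ Tr p a₁ a₂ c := by
  intro i h0 hi
  have hl := h'.length_le
  have h1 := h i h0 (hi.trans hl)
  rw [List.prefix_iff_eq_take.1 h', List.take_take, min_eq_left hi]
  exact h1

lemma nil_mem_Tr (p a₁ a₂ c : Bai) : [] ∈ Tr p a₁ a₂ c := by
  intro i h0 hi
  rw [List.length_nil] at hi
  omega

lemma Tr_congr (p a₁ a₂ c c' : Bai) (t : List ℕ) (h : ∀ i < t.length, c i = c' i) :
    t ∈ Tr p a₁ a₂ c ↔ t ∈ Tr p a₁ a₂ c' := by
  have key : ∀ i, i ≤ t.length → res c i = res c' i := fun i hi =>
    (res_eq_iff _ _ _).2 fun j hj => h j (hj.trans_le hi)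
  constructor
  · intro h1 i h0 hi
    rw [← key i hi]
    exact h1 i h0 hi
  · intro h1 i h0 hi
    rw [key i hi]
    exact h1 i h0 hi

lemma measurableSet_res {X : Type*} [MeasurableSpace X] {F : X → Bai} (hF : Measurable F) (i : ℕ)
    (v : List ℕ) : MeasurableSet {q | res (F q) i = v} := by
  by_cases hv : v.length = i
  · have : {q | res (F q) i = v} = ⋂ j : Fin i, {q | F q j = v.getD j 0} := by
      ext q
      simp only [Set.mem_ofPred_eq, Set.mem_iInter]
      have h2 : v = res (fun j => v.getD j 0) i := by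
        refine List.ext_getElem (by rw [res_length, hv]) fun j h1 h2 => ?_
        simp [res, List.getElem?_eq_getElem h1]
      constructor
      · intro h j
        rw [h2] at h
        have := (res_eq_iff _ _ _).1 h j j.2
        simpa using this
      · intro h
        rw [h2]
        exact (res_eq_iff _ _ _).2 fun j hj => h ⟨j, hj⟩
    rw [this]
    refine MeasurableSet.iInter fun j => ?_
    exact ((measurable_pi_apply (j : ℕ)).comp hF) (measurableSet_singleton _)
  · have : {q | res (F q) i = v} = ∅ := by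
      ext q
      simp only [Set.mem_ofPred_eq, Set.mem_empty_iff_false, iff_false]
      rintro rfl
      exact hv (res_length _ _)
    rw [this]
    exact MeasurableSet.empty

lemma measurableSet_Tr (t : List ℕ) :
    MeasurableSet {q : Bai × Bai × Bai × Bai | t ∈ Tr q.1 q.2.1 q.2.2.1 q.2.2.2} := by
  have h1 : {q : Bai × Bai × Bai × Bai | t ∈ Tr q.1 q.2.1 q.2.2.1 q.2.2.2} =
      ⋂ i : ℕ, {q : Bai × Bai × Bai × Bai | 0 < i → i ≤ t.length →
        q.1 (Encodable.encode (res q.2.1 i, res q.2.2.1 i, res q.2.2.2 i, t.take i)) = 0} := by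
    ext q
    simp [Tr]
  rw [h1]
  refine MeasurableSet.iInter fun i => ?_
  by_cases h0 : 0 < i
  swap
  · have : {q : Bai × Bai × Bai × Bai | 0 < i → i ≤ t.length →
        q.1 (Encodable.encode (res q.2.1 i, res q.2.2.1 i, res q.2.2.2 i, t.take i)) = 0} =
        Set.univ := by
      ext q
      simp [h0]
    rw [this]
    exact MeasurableSet.univ
  by_cases hi : i ≤ t.length
  swap
  · have : {q : Bai × Bai × Bai × Bai | 0 < i → i ≤ t.length →
        q.1 (Encodable.encode (res q.2.1 i, res q.2.2.1 i, res q.2.2.2 i, t.take i)) = 0} =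
        Set.univ := by
      ext q
      simp [hi]
    rw [this]
    exact MeasurableSet.univ
  have h2 : {q : Bai × Bai × Bai × Bai | 0 < i → i ≤ t.length →
        q.1 (Encodable.encode (res q.2.1 i, res q.2.2.1 i, res q.2.2.2 i, t.take i)) = 0} =
      ⋃ v : List ℕ × List ℕ × List ℕ, ({q | res q.2.1 i = v.1} ∩ {q | res q.2.2.1 i = v.2.1} ∩
        {q | res q.2.2.2 i = v.2.2} ∩
        {q | q.1 (Encodable.encode (v.1, v.2.1, v.2.2, t.take i)) = 0}) := by
    ext q
    simp only [Set.mem_ofPred_eq, Set.mem_iUnion, Set.mem_inter_iff]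
    constructor
    · intro h
      exact ⟨(res q.2.1 i, res q.2.2.1 i, res q.2.2.2 i), ⟨⟨rfl, rfl⟩, rfl⟩, h h0 hi⟩
    · rintro ⟨v, ⟨⟨e1, e2⟩, e3⟩, e4⟩ _ _
      rw [e1, e2, e3]
      exact e4
  rw [h2]
  refine MeasurableSet.iUnion fun v => ?_
  refine (((measurableSet_res ?_ i v.1).inter (measurableSet_res ?_ i v.2.1)).inter
    (measurableSet_res ?_ i v.2.2)).inter ?_
  · exact measurable_fst.comp measurable_snd
  · exact measurable_fst.comp (measurable_snd.comp measurable_snd)
  · exact measurable_snd.comp (measurable_snd.comp measurable_snd)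
  · exact ((measurable_pi_apply _).comp measurable_fst) (measurableSet_singleton _)

end Pool.Agent.BH
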