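import Mathlib
import Pool.Agent.Helper98.BH.Defs
import Pool.Agent.Helper98.BH.Defs2
import Pool.Agent.Helper72.BH.Tree

/-!
# BH-8c: diagonalisation
-/

namespace Pool.Agent.BH

open MeasureTheory Filter Topology

theorem isClosed_strictMono : IsClosed {x : ℕ → ℕ | StrictMono x} := by
  have : {x : ℕ → ℕ | StrictMono x} = ⋂ n : ℕ, {x : ℕ → ℕ | x n < x (n + 1)} := by
    ext x
    simp only [Set.mem_ofPred_eq, Set.mem_iInter]
    exact ⟨fun h n => h (Nat.lt_succ_self n), strictMono_nat_of_lt_succ⟩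
  rw [this]
  refine isClosed_iInter fun n => ?_
  have h2 : {x : ℕ → ℕ | x n < x (n + 1)} = (fun x : ℕ → ℕ => (x n, x (n + 1))) ⁻¹'
      {q : ℕ × ℕ | q.1 < q.2} := rfl
  rw [h2]
  exact (isClosed_discrete _).preimage ((continuous_apply n).prodMk (continuous_apply (n + 1)))

theorem polishInc : PolishSpace Inc := isClosed_strictMono.polishSpace

instance instPolishInc : PolishSpace Inc := polishInc

theorem continuous_shift : Continuous shift := by
  refine Continuous.subtype_mk ?_ _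
  exact continuous_pi fun n => (continuous_apply (n + 1)).comp continuous_subtype_val

/-- the space of all parameters -/
abbrev YY := (Bai × Bai) × (Bai × Inc)

theorem polish_prod (X Y : Type*) [TopologicalSpace X] [TopologicalSpace Y] [PolishSpace X]
    [PolishSpace Y] : PolishSpace (X × Y) := inferInstance

instance instPolishYY : PolishSpace YY := polish_prod _ _

theorem borel_prod (X Y : Type*) [TopologicalSpace X] [TopologicalSpace Y]
    [SecondCountableTopology X] [SecondCountableTopology Y] [MeasurableSpace X]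
    [MeasurableSpace Y] [BorelSpace X] [BorelSpace Y] : BorelSpace (X × Y) := inferInstance

instance instBorelYY : BorelSpace YY := borel_prod _ _

theorem continuous_arg (n : ℕ) :
    Continuous fun q : YY => (q.2.1, (q.2.1, shift^[n] q.2.2)) := by
  have h1 : Continuous fun q : YY => q.2.1 := continuous_fst.comp continuous_snd
  have h2 : Continuous fun q : YY => shift^[n] q.2.2 :=
    (continuous_shift.iterate n).comp (continuous_snd.comp continuous_snd)
  exact h1.prodMk (h1.prodMk h2)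

/-- the diagonal set -/
def VV (D : Bai × Bai → Set (Bai × Inc)) (Inv : Set Bai) (P N : Set (Bai × (Bai × Inc))) :
    Set (Bai × Bai × Bai) :=
  {v | v.2.2 ∈ Inv ∨ ∃ x : Inc, (v.2.2, x) ∈ D (v.1, v.2.1) ∧
    ((∀ n, (v.2.2, (v.2.2, shift^[n] x)) ∈ P) ∨ ∀ n, (v.2.2, (v.2.2, shift^[n] x)) ∈ N)}

theorem analytic_union {X : Type*} [TopologicalSpace X] {s t : Set X} (hs : AnalyticSet s)
    (ht : AnalyticSet t) : AnalyticSet (s ∪ t) := by
  rw [Set.union_eq_iUnion]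
  refine AnalyticSet.iUnion fun b => ?_
  cases b
  · exact ht
  · exact hs

theorem analytic_inter {X : Type*} [TopologicalSpace X] [T2Space X] {s t : Set X}
    (hs : AnalyticSet s) (ht : AnalyticSet t) : AnalyticSet (s ∩ t) := by
  rw [Set.inter_eq_iInter]
  refine AnalyticSet.iInter fun b => ?_
  cases b
  · exact ht
  · exact hs

theorem analytic_VV {D : Bai × Bai → Set (Bai × Inc)}
    (hD : MeasurableSet {q : (Bai × Bai) × (Bai × Inc) | q.2 ∈ D q.1}) {Inv : Set Bai}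
    {P N : Set (Bai × (Bai × Inc))} (hInv : AnalyticSet Inv) (hP : AnalyticSet P)
    (hN : AnalyticSet N) : AnalyticSet (VV D Inv P N) := by
  have e : VV D Inv P N = (fun v : Bai × Bai × Bai => v.2.2) ⁻¹' Inv ∪
      (fun q : YY => (q.1.1, q.1.2, q.2.1)) '' ({q : YY | q.2 ∈ D q.1} ∩
        ((⋂ n, (fun q : YY => (q.2.1, (q.2.1, shift^[n] q.2.2))) ⁻¹' P) ∪
          ⋂ n, (fun q : YY => (q.2.1, (q.2.1, shift^[n] q.2.2))) ⁻¹' N)) := by
    ext ⟨a1, a2, c⟩
    simp only [VV, Set.mem_ofPred_eq, Set.mem_union, Set.mem_preimage, Set.mem_image,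
      Set.mem_inter_iff, Set.mem_iInter]
    refine or_congr Iff.rfl ⟨?_, ?_⟩
    · rintro ⟨x, h1, h2⟩
      exact ⟨((a1, a2), (c, x)), ⟨h1, h2⟩, rfl⟩
    · rintro ⟨⟨⟨b1, b2⟩, ⟨c', x⟩⟩, ⟨h1, h2⟩, h3⟩
      simp only [Prod.mk.injEq] at h3
      obtain ⟨rfl, rfl, rfl⟩ := h3
      exact ⟨x, h1, h2⟩
  rw [e]
  refine analytic_union (hInv.preimage (continuous_snd.comp continuous_snd)) ?_
  refine AnalyticSet.image_of_continuous ?_ ?_
  · refine analytic_inter hD.analyticSet (analytic_union ?_ ?_)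
    · exact AnalyticSet.iInter fun n => hP.preimage (continuous_arg n)
    · exact AnalyticSet.iInter fun n => hN.preimage (continuous_arg n)
  · exact (continuous_fst.comp continuous_fst).prodMk
      ((continuous_snd.comp continuous_fst).prodMk (continuous_fst.comp continuous_snd))

theorem marks_half {U : Set (Bai × Inc)} {Inv : Set Bai} {P N : Set (Bai × (Bai × Inc))}
    (h1 : ∀ c ∉ Inv, ∀ z, ((c, z) ∈ P ↔ (c, z) ∉ N)) {A : Set (Bai × Inc)} (hM : Marks U A)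
    {c : Bai} (hc : c ∉ Inv) (hcA : ∀ z, (c, z) ∈ P ↔ z ∈ A) :
    ¬ (c ∈ Inv ∨ ∃ x : Inc, (c, x) ∈ U ∧
      ((∀ n, (c, (c, shift^[n] x)) ∈ P) ∨ ∀ n, (c, (c, shift^[n] x)) ∈ N)) := by
  rintro (h | ⟨x, hx, h | h⟩)
  · exact hc h
  · obtain ⟨n, hn⟩ := (hM (c, x) hx).2
    exact hn ((hcA _).1 (h n))
  · obtain ⟨n, hn⟩ := (hM (c, x) hx).1
    exact ((h1 c hc _).1 ((hcA _).2 hn)) (h n)

theorem measurable_section {Inv : Set Bai} {P N : Set (Bai × (Bai × Inc))} (hP : AnalyticSet P)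
    (hN : AnalyticSet N) (h1 : ∀ c ∉ Inv, ∀ z, ((c, z) ∈ P ↔ (c, z) ∉ N)) {c : Bai}
    (hc : c ∉ Inv) : MeasurableSet {x : Inc | (c, (c, x)) ∈ P} := by
  have hcont : Continuous fun x : Inc => (c, (c, x)) :=
    continuous_const.prodMk (continuous_const.prodMk continuous_id)
  refine AnalyticSet.measurableSet_of_compl (hP.preimage hcont) ?_
  have : {x : Inc | (c, (c, x)) ∈ P}ᶜ = (fun x : Inc => (c, (c, x))) ⁻¹' N := by
    ext x
    simp only [Set.mem_compl_iff, Set.mem_ofPred_eq, Set.mem_preimage, h1 c hc, not_not]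
  rw [this]
  exact hN.preimage hcont

theorem section_half {U : Set (Bai × Inc)} {Inv : Set Bai} {P N : Set (Bai × (Bai × Inc))}
    (hP : AnalyticSet P) (hN : AnalyticSet N)
    (h1 : ∀ c ∉ Inv, ∀ z, ((c, z) ∈ P ↔ (c, z) ∉ N)) {c : Bai}
    (h : ¬ (c ∈ Inv ∨ ∃ x : Inc, (c, x) ∈ U ∧
      ((∀ n, (c, (c, shift^[n] x)) ∈ P) ∨ ∀ n, (c, (c, shift^[n] x)) ∈ N))) :
    ∃ A : Set Inc, MeasurableSet A ∧
      ∀ x, (c, x) ∈ U → (∃ n, shift^[n] x ∈ A) ∧ ∃ n, shift^[n] x ∉ A := by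
  have hc : c ∉ Inv := fun h' => h (Or.inl h')
  refine ⟨{x : Inc | (c, (c, x)) ∈ P}, measurable_section hP hN h1 hc, fun x hx => ⟨?_, ?_⟩⟩
  · by_contra hcon
    push Not at hcon
    refine h (Or.inr ⟨x, hx, Or.inr fun n => ?_⟩)
    by_contra h2
    exact hcon n ((h1 c hc _).2 h2)
  · by_contra hcon
    push Not at hcon
    exact h (Or.inr ⟨x, hx, Or.inl fun n => hcon n⟩)

/-- BH-8c with the modules it uses as hypotheses -/
theorem exists_fix_of
    (hcod : ∃ (Inv : Set Bai) (P N : Set (Bai × (Bai × Inc))), AnalyticSet Inv ∧ AnalyticSet P ∧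
      AnalyticSet N ∧ (∀ c ∉ Inv, ∀ z, ((c, z) ∈ P ↔ (c, z) ∉ N)) ∧
      (∀ A : Set (Bai × Inc), MeasurableSet A → ∃ c ∉ Inv, ∀ z, (c, z) ∈ P ↔ z ∈ A))
    (hB : MeasurableSet {q : (Bai × Bai) × (Bai × Inc) | q.2 ∈ B q.1})
    (hC : MeasurableSet {q : (Bai × Bai) × (Bai × Inc) | q.2 ∈ C q.1}) :
    ∃ a : Bai × Bai,
    (∀ A : Set (Bai × Inc), MeasurableSet A → Marks (B a) A → ∃ c, WF (T1 a c)) ∧
    (∀ A : Set (Bai × Inc), MeasurableSet A → Marks (C a) A → ∃ c, WF (T2 a c)) ∧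
    (∀ c, WF (T1 a c) → ∃ A : Set Inc, MeasurableSet A ∧
      ∀ x, (c, x) ∈ B a → (∃ n, shift^[n] x ∈ A) ∧ ∃ n, shift^[n] x ∉ A) ∧
    (∀ c, WF (T2 a c) → ∃ A : Set Inc, MeasurableSet A ∧
      ∀ x, (c, x) ∈ C a → (∃ n, shift^[n] x ∈ A) ∧ ∃ n, shift^[n] x ∉ A) := by
  obtain ⟨Inv, P, N, hInv, hP, hN, h1, h2⟩ := hcod
  obtain ⟨p, hp⟩ := exists_index _ (analytic_VV hB hInv hP hN)
  obtain ⟨q, hq⟩ := exists_index _ (analytic_VV hC hInv hP hN)
  have w1 : ∀ c, WF (T1 (p, q) c) ↔ (p, q, c) ∉ VV B Inv P N := fun c =>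
    not_congr (hp p q c).symm
  have w2 : ∀ c, WF (T2 (p, q) c) ↔ (p, q, c) ∉ VV C Inv P N := fun c =>
    not_congr (hq p q c).symm
  refine ⟨(p, q), fun A hA hM => ?_, fun A hA hM => ?_, fun c hc => ?_, fun c hc => ?_⟩
  · obtain ⟨c, hc, hcA⟩ := h2 A hA
    exact ⟨c, (w1 c).2 (marks_half h1 hM hc hcA)⟩
  · obtain ⟨c, hc, hcA⟩ := h2 A hA
    exact ⟨c, (w2 c).2 (marks_half h1 hM hc hcA)⟩
  · exact section_half hP hN h1 ((w1 c).1 hc)
  · exact section_half hP hN h1 ((w2 c).1 hc)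

end Pool.Agent.BH
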